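import Pool.Agent.H6.FIB.TargetsG

/-!
# Board `fib_modules`, row Q2A: the data `Q2` of the groups between `PSL(2, q)` and `PGL(2, q)`
-/

set_option autoImplicit false

open FI AMc AMt

namespace Pool.Agent.H5.FIB

theorem card_comap_inj {G H : Type} [Group G] [Group H] (f : G →* H)
    (hf : Function.Injective f) (K : Subgroup H) (hK : K ≤ f.range) :
    Nat.card (K.comap f) = Nat.card K := by
  have h1 : (K.comap f).map f = K := Subgroup.map_comap_eq_self hK
  have h2 : Nat.card ((K.comap f).map f) = Nat.card (K.comap f) :=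
    (Nat.card_congr ((K.comap f).equivMapOfInjective f hf).toEquiv).symm
  rw [h1] at h2
  exact h2.symm

theorem pf_Q2A (h1 : T_CRD) (h2 : T_UBF) (h3 : T_ALQ) : T_Q2A := by
  intro q A _ _ f hq h7 hf hR
  obtain ⟨hfin, hcard, hidx, hnor⟩ := h1 q hq h7
  obtain ⟨U0, B0, h⟩ := h2 q hq h7
  refine ⟨U0.comap f, B0.comap f, ?_⟩
  constructor
  · exact hq
  · exact h7
  · exact h3 q A f hq h7 hf hR
  · have h4 := (PS q).card_mul_index
    rw [hidx, hcard] at h4
    rw [card_comap_inj f hf _ hR, mul_comm]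
    exact h4
  · exact Subgroup.comap_mono h.US
  · exact Subgroup.comap_mono h.UB
  · intro b hb u hu
    rw [Subgroup.mem_comap, map_mul, map_mul, map_inv]
    exact h.nor (f b) hb (f u) hu
  · rw [card_comap_inj f hf _ (h.US.trans hR)]
    exact h.crU
  · have h5 : B0.comap f ⊓ (PS q).comap f = (B0 ⊓ PS q).comap f := rfl
    rw [h5, card_comap_inj f hf _ (inf_le_right.trans hR)]
    exact h.crS
  · intro a _ haB u hu hau
    rw [Subgroup.mem_comap, map_mul, map_mul, map_inv] at hau
    have h6 := h.ti (f a) haB (f u) hu hau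
    exact hf (h6.trans (map_one f).symm)
  · intro b hb u hu hu1 hbu
    refine h.reg (f b) hb (f u) hu (fun h7 => hu1 (hf (h7.trans (map_one f).symm))) ?_
    rw [← map_mul, ← map_mul, hbu]
  · rw [Subgroup.index_comap]
    have h4 := Subgroup.relIndex_mul_index hR
    rw [hidx] at h4
    have h5 : (PS q).relIndex f.range ∣ 2 := ⟨_, h4.symm⟩
    rcases (Nat.dvd_prime Nat.prime_two).1 h5 with h6 | h6
    · exact Or.inl h6
    · refine Or.inr ⟨h6, ?_⟩
      rw [h6] at h4
      have h7 : f.range = ⊤ := Subgroup.index_eq_one.1 (by omega)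
      obtain ⟨b, hbB, hbS⟩ := h.two
      have h8 : b ∈ f.range := by
        rw [h7]
        exact Subgroup.mem_top b
      obtain ⟨b', rfl⟩ := h8
      exact ⟨b', hbB, hbS⟩

end Pool.Agent.H5.FIB
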